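import Mathlib

set_option autoImplicit false

namespace Pool.Agent.Results.MP_024e1e_ag.BipartiteCounterexample

open MvPolynomial

/-- The Lovász–Saks–Schrijver ideal of the graph `G` in dimension `d` over `k`: the ideal of
`k[y_{v,j} : v ∈ V, j ∈ [d]]` generated by the forms `∑_j y_{i,j} y_{l,j}`, one for each edge
`{i,l}` of `G`. -/
noncomputable def lssIdeal (k : Type*) [Field k] {V : Type*} (G : SimpleGraph V) (d : ℕ) :
    Ideal (MvPolynomial (V × Fin d) k) :=
  Ideal.span {f | ∃ i l : V, G.Adj i l ∧ f = ∑ j : Fin d, X (i, j) * X (l, j)}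

/-! ### Determinants -/

section det

variable {R : Type*} [CommRing R] {n : Type*} [Fintype n] [DecidableEq n]

theorem det_one_updateRow_updateRow (i j : n) (hij : i ≠ j) (u v : n → R) :
    (((1 : Matrix n n R).updateRow i u).updateRow j v).det = u i * v j - u j * v i := by
  have hM : (((1 : Matrix n n R).updateRow i u).updateRow j v) =
      1 + (Matrix.of fun (a : n) (b : Fin 2) =>
          if b = 0 then (if a = i then (1 : R) else 0) else (if a = j then (1 : R) else 0)) *
        (Matrix.of fun (b : Fin 2) (a : n) =>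
          if b = 0 then u a - (if i = a then (1 : R) else 0)
            else v a - (if j = a then (1 : R) else 0)) := by
    ext a b
    by_cases haj : a = j
    · subst haj
      have : a ≠ i := fun h => hij h.symm
      simp [Matrix.mul_apply, Fin.sum_univ_two, this, Matrix.one_apply]
    · by_cases hai : a = i
      · subst hai
        simp [Matrix.mul_apply, Fin.sum_univ_two, haj, Matrix.one_apply]
      · simp [Matrix.mul_apply, haj, hai]
  rw [hM, Matrix.det_one_add_mul_comm, Matrix.det_fin_two]
  simp [Matrix.mul_apply, hij, hij.symm]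

theorem mul_det_updateRow_updateRow (D : n → R) (i j : n) (hij : i ≠ j) (u v : n → R) :
    D i * D j * (((Matrix.diagonal D).updateRow i u).updateRow j v).det =
      (∏ a, D a) * (u i * v j - u j * v i) := by
  have hM : ((Matrix.diagonal D).updateRow i u).updateRow j v =
      Matrix.diagonal (Function.update (Function.update D i 1) j 1) *
        ((1 : Matrix n n R).updateRow i u).updateRow j v := by
    ext a b
    rw [Matrix.diagonal_mul]
    by_cases haj : a = j
    · subst haj
      simp
    · by_cases hai : a = i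
      · subst hai
        simp [haj]
      · simp [haj, hai, Matrix.diagonal_apply, Matrix.one_apply]
  have hp : D i * D j * (∏ a, Function.update (Function.update D i 1) j 1 a) = ∏ a, D a := by
    rw [Finset.prod_update_of_mem (Finset.mem_univ j)]
    have hi : i ∈ Finset.univ \ ({j} : Finset n) := by simp [hij]
    rw [Finset.prod_update_of_mem hi, one_mul, one_mul]
    rw [← Finset.mul_prod_erase Finset.univ D (Finset.mem_univ j)]
    have hi' : i ∈ Finset.univ.erase j := by simp [hij]
    rw [← Finset.mul_prod_erase _ D hi']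
    have : (Finset.univ \ {j}) \ {i} = (Finset.univ.erase j).erase i := by
      ext a; simp [and_comm]
    rw [this]
    ring
  rw [hM, Matrix.det_mul, Matrix.det_diagonal, det_one_updateRow_updateRow i j hij, ← mul_assoc,
    hp]

/-- The `2 × 2` minor of `B` on the rows `i, j` and the columns `c, c'`. -/
def beta (B : Matrix n n R) (c c' i j : n) : R := B i c * B j c' - B j c * B i c'

/-- The complementary minor of `A`: the determinant of `A` with row `i` replaced by the unit
vector `e_c` and row `j` replaced by `e_{c'}`. -/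
def alpha (A : Matrix n n R) (c c' i j : n) : R :=
  ((A.updateRow i (Pi.single c 1)).updateRow j (Pi.single c' 1)).det

theorem alpha_mul_det (A B : Matrix n n R) (D : n → R) (h : A * B.transpose = Matrix.diagonal D)
    (c c' i j : n) (hij : i ≠ j) :
    D i * D j * (alpha A c c' i j * B.det) = (∏ a, D a) * beta B c c' i j := by
  have h1 : alpha A c c' i j * B.det =
      (((Matrix.diagonal D).updateRow i (fun a => B a c)).updateRow j (fun a => B a c')).det := by
    rw [alpha, ← Matrix.det_transpose B, ← Matrix.det_mul, Matrix.updateRow_mul,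
      Matrix.updateRow_mul, h]
    have hrow : ∀ c : n, Matrix.vecMul (Pi.single c 1) B.transpose = fun a => B a c := by
      intro c
      ext a
      simp
    rw [hrow, hrow]
  rw [h1, mul_det_updateRow_updateRow D i j hij, beta]

/-- The key relation: it vanishes on the closure of the locus where `A` and `B` are invertible. -/
theorem key (A B : Matrix n n R) (D : n → R) (h : A * B.transpose = Matrix.diagonal D)
    (c c' i₀ i₁ i₂ i₃ : n) (h02 : i₀ ≠ i₂) (h13 : i₁ ≠ i₃) (h01 : i₀ ≠ i₁) (h23 : i₂ ≠ i₃) :
    (D i₀ * D i₁ * D i₂ * D i₃) * B.det ^ 2 *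
      (beta B c c' i₀ i₁ * beta B c c' i₂ i₃ * (alpha A c c' i₀ i₂ * alpha A c c' i₁ i₃) -
        beta B c c' i₀ i₂ * beta B c c' i₁ i₃ * (alpha A c c' i₀ i₁ * alpha A c c' i₂ i₃)) = 0 := by
  have e02 := alpha_mul_det A B D h c c' i₀ i₂ h02
  have e13 := alpha_mul_det A B D h c c' i₁ i₃ h13
  have e01 := alpha_mul_det A B D h c c' i₀ i₁ h01
  have e23 := alpha_mul_det A B D h c c' i₂ i₃ h23
  have p1 := congrArg₂ (· * ·) e02 e13
  have p2 := congrArg₂ (· * ·) e01 e23
  linear_combination (beta B c c' i₀ i₁ * beta B c c' i₂ i₃) * p1 -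
    (beta B c c' i₀ i₂ * beta B c c' i₁ i₃) * p2

theorem det_ite_ne_zero [Nontrivial R] (r : n → n) (hr : Function.Injective r) :
    (Matrix.of fun i j => if r i = j then (1 : R) else 0).det ≠ 0 := by
  have hb : Function.Bijective r := (Finite.injective_iff_bijective).1 hr
  have : (Matrix.of fun i j => if r i = j then (1 : R) else 0) =
      (1 : Matrix n n R).submatrix (Equiv.ofBijective r hb) id := by
    ext i j
    simp [Matrix.one_apply]
  rw [this, Matrix.det_permute, Matrix.det_one, mul_one]
  rcases Int.units_eq_one_or (Equiv.Perm.sign (Equiv.ofBijective r hb)) with h | h <;> simp [h]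

theorem map_alpha {R' : Type*} [CommRing R'] (φ : R →+* R') (A : Matrix n n R) (c c' i j : n) :
    φ (alpha A c c' i j) = alpha (A.map φ) c c' i j := by
  rw [alpha, alpha, RingHom.map_det]
  congr 1
  ext a b
  by_cases haj : a = j
  · subst haj
    simp [Pi.single_apply, apply_ite φ]
  · by_cases hai : a = i
    · subst hai
      simp [haj, Pi.single_apply, apply_ite φ]
    · simp [haj, hai]

omit [Fintype n] [DecidableEq n] in
theorem map_beta {R' : Type*} [CommRing R'] (φ : R →+* R') (B : Matrix n n R) (c c' i j : n) :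
    φ (beta B c c' i j) = beta (B.map φ) c c' i j := by
  simp [beta]

end det

/-! ### The graph -/

/-- The position of a vertex in its part. -/
def idx {m n : ℕ} (x : Fin m ⊕ Fin n) : ℕ := Sum.elim (fun i => i.val) (fun i => i.val) x

theorem idx_inj {m n : ℕ} (x y : Fin m ⊕ Fin n) (h : x.isLeft = y.isLeft) (h' : idx x = idx y) :
    x = y := by
  rcases x with x | x <;> rcases y with y | y <;> simp_all [idx, Fin.ext_iff]

/-- `K_{d,d}` minus a perfect matching, on the first `d` vertices of each part of `K_{m,n}`. -/
def crown (m n d : ℕ) : SimpleGraph (Fin m ⊕ Fin n) where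
  Adj x y := x.isLeft ≠ y.isLeft ∧ idx x ≠ idx y ∧ idx x < d ∧ idx y < d
  symm := ⟨fun _ _ h => ⟨h.1.symm, h.2.1.symm, h.2.2.2, h.2.2.1⟩⟩
  loopless := ⟨fun _ h => h.1 rfl⟩

theorem crown_le (m n d : ℕ) : crown m n d ≤ completeBipartiteGraph (Fin m) (Fin n) := by
  intro x y h
  rcases x with x | x <;> rcases y with y | y <;> simp_all [crown]

theorem crown_free (m n d a b : ℕ) (ha : 1 ≤ a) (hb : 1 ≤ b) (hab : d + 1 ≤ a + b) :
    ¬ (completeBipartiteGraph (Fin a) (Fin b)).IsContained (crown m n d) := by
  rintro ⟨f⟩
  have hadj : ∀ (x : Fin a) (y : Fin b), (crown m n d).Adj (f (Sum.inl x)) (f (Sum.inr y)) := by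
    intro x y
    exact f.toHom.map_adj (by simp)
  let x0 : Fin a := ⟨0, ha⟩
  let y0 : Fin b := ⟨0, hb⟩
  have hlt : ∀ z, idx (f z) < d := by
    rintro (x | y)
    · exact (hadj x y0).2.2.1
    · exact (hadj x0 y).2.2.2
  have hinj : Function.Injective (fun z => (⟨idx (f z), hlt z⟩ : Fin d)) := by
    intro z z' hz
    simp only [Fin.mk.injEq] at hz
    rcases z with x | y <;> rcases z' with x' | y'
    · apply f.injective
      apply idx_inj _ _ _ hz
      have h1 := (hadj x y0).1
      have h2 := (hadj x' y0).1
      revert h1 h2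
      cases (f (Sum.inl x)).isLeft <;> cases (f (Sum.inl x')).isLeft <;>
        cases (f (Sum.inr y0)).isLeft <;> simp
    · exact absurd hz (hadj x y').2.1
    · exact absurd hz.symm (hadj x' y).2.1
    · apply f.injective
      apply idx_inj _ _ _ hz
      have h1 := (hadj x0 y).1
      have h2 := (hadj x0 y').1
      revert h1 h2
      cases (f (Sum.inr y)).isLeft <;> cases (f (Sum.inr y')).isLeft <;>
        cases (f (Sum.inl x0)).isLeft <;> simp
  have hcard := Fintype.card_le_of_injective _ hinj
  simp at hcard
  omega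

/-! ### The ideal is not prime -/

theorem lssIdeal_le_ker (k : Type*) [Field k] {V : Type*} (G : SimpleGraph V) (d : ℕ)
    (p : V × Fin d → k) (hp : ∀ u v, G.Adj u v → ∑ j, p (u, j) * p (v, j) = 0) :
    lssIdeal k G d ≤ RingHom.ker (MvPolynomial.eval p) := by
  rw [lssIdeal, Ideal.span_le]
  rintro f ⟨i, l, h, rfl⟩
  simp [RingHom.mem_ker, hp i l h]

theorem crown_not_prime (k : Type*) [Field k] (m n d : ℕ) (hd : 4 ≤ d) (hm : d ≤ m) (hn : d ≤ n) :
    ¬ (lssIdeal k (crown m n d) d).IsPrime := by
  intro hprime
  set L := lssIdeal k (crown m n d) d with hL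
  let A : Matrix (Fin d) (Fin d) (MvPolynomial ((Fin m ⊕ Fin n) × Fin d) k) :=
    Matrix.of fun i j => X (Sum.inl (Fin.castLE hm i), j)
  let B : Matrix (Fin d) (Fin d) (MvPolynomial ((Fin m ⊕ Fin n) × Fin d) k) :=
    Matrix.of fun i j => X (Sum.inr (Fin.castLE hn i), j)
  let D : Fin d → MvPolynomial ((Fin m ⊕ Fin n) × Fin d) k := fun i => ∑ j, A i j * B i j
  let i₀ : Fin d := ⟨0, by omega⟩
  let i₁ : Fin d := ⟨1, by omega⟩
  let i₂ : Fin d := ⟨2, by omega⟩
  let i₃ : Fin d := ⟨3, by omega⟩
  have h02 : i₀ ≠ i₂ := by simp [i₀, i₂]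
  have h13 : i₁ ≠ i₃ := by simp [i₁, i₃]
  have h01 : i₀ ≠ i₁ := by simp [i₀, i₁]
  have h23 : i₂ ≠ i₃ := by simp [i₂, i₃]
  let P := (D i₀ * D i₁ * D i₂ * D i₃) * B.det ^ 2
  let F := beta B i₀ i₁ i₀ i₁ * beta B i₀ i₁ i₂ i₃ * (alpha A i₀ i₁ i₀ i₂ * alpha A i₀ i₁ i₁ i₃) -
        beta B i₀ i₁ i₀ i₂ * beta B i₀ i₁ i₁ i₃ * (alpha A i₀ i₁ i₀ i₁ * alpha A i₀ i₁ i₂ i₃)
  -- the product of `P` and `F` lies in the ideal
  have hPF : P * F ∈ L := by
    rw [← Ideal.Quotient.eq_zero_iff_mem]
    have hAB : A.map (Ideal.Quotient.mk L) * (B.map (Ideal.Quotient.mk L)).transpose =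
        Matrix.diagonal (fun i => Ideal.Quotient.mk L (D i)) := by
      ext i j
      rw [Matrix.mul_apply]
      by_cases hij : i = j
      · subst hij
        simp [D]
      · rw [Matrix.diagonal_apply_ne _ hij]
        simp only [Matrix.map_apply, Matrix.transpose_apply]
        simp only [← map_mul, ← map_sum]
        rw [Ideal.Quotient.eq_zero_iff_mem, hL]
        apply Ideal.subset_span
        refine ⟨Sum.inl (Fin.castLE hm i), Sum.inr (Fin.castLE hn j), ?_, rfl⟩
        refine ⟨by simp, ?_, by simp [idx], by simp [idx]⟩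
        simpa [idx] using fun h => hij (Fin.ext h)
    have := key _ _ _ hAB i₀ i₁ i₀ i₁ i₂ i₃ h02 h13 h01 h23
    rw [← this]
    simp only [P, F, map_mul, map_sub, map_pow, map_alpha, map_beta, RingHom.map_det]
    rfl
  -- `P` does not lie in the ideal
  have hP : P ∉ L := by
    intro hmem
    let p : (Fin m ⊕ Fin n) × Fin d → k := fun x => if idx x.1 = x.2.val then 1 else 0
    have hle : L ≤ RingHom.ker (MvPolynomial.eval p) := by
      apply lssIdeal_le_ker
      intro u v huv
      apply Finset.sum_eq_zero
      intro j _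
      simp only [p]
      by_cases h : idx u = j.val
      · have : idx v ≠ j.val := fun h' => huv.2.1 (h.trans h'.symm)
        simp [this]
      · simp [h]
    have h0 : MvPolynomial.eval p P = 0 := hle hmem
    have hB : B.map (MvPolynomial.eval p) = 1 := by
      ext i j
      by_cases hij : i = j
      · subst hij
        simp [B, p, idx]
      · have : i.val ≠ j.val := fun h => hij (Fin.ext h)
        simp [B, p, idx, this, hij]
    have hD : ∀ i, MvPolynomial.eval p (D i) = 1 := by
      intro i
      simp only [D, A, B, map_sum, map_mul, Matrix.of_apply, eval_X]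
      rw [Finset.sum_eq_single i]
      · simp [p, idx]
      · intro j _ hj
        have : i.val ≠ j.val := fun h => hj (Fin.ext h.symm)
        simp [p, idx, this]
      · simp
    simp only [P, map_mul, map_pow, RingHom.map_det, hD] at h0
    rw [show (MvPolynomial.eval p).mapMatrix B = B.map (MvPolynomial.eval p) from rfl, hB] at h0
    simp at h0
  -- `F` does not lie in the ideal
  have hF : F ∉ L := by
    intro hmem
    let ρ : ℕ → ℕ := fun i => if i < 2 then 2 else if i < 4 then 3 else i
    let τ : ℕ → ℕ := fun i => if i = 0 ∨ i = 2 then 0 else 1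
    let p : (Fin m ⊕ Fin n) × Fin d → k := fun x => Sum.elim
      (fun i : Fin m => if ρ i.val = x.2.val then 1 else 0)
      (fun i : Fin n => if i.val < 4 ∧ τ i.val = x.2.val then 1 else 0) x.1
    have hle : L ≤ RingHom.ker (MvPolynomial.eval p) := by
      apply lssIdeal_le_ker
      intro u v huv
      apply Finset.sum_eq_zero
      intro j _
      have aux : ∀ (i : Fin m) (l : Fin n), p (Sum.inl i, j) * p (Sum.inr l, j) = 0 := by
        intro i l
        simp only [p, Sum.elim_inl, Sum.elim_inr]
        by_cases h : ρ i.val = j.val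
        · have : ¬ (l.val < 4 ∧ τ l.val = j.val) := by
            rintro ⟨_, h2⟩
            simp only [ρ, τ] at h h2
            split_ifs at h h2 <;> omega
          simp [this]
        · simp [h]
      rcases u with u | u <;> rcases v with v | v
      · exact absurd rfl huv.1
      · exact aux u v
      · rw [mul_comm]; exact aux v u
      · exact absurd rfl huv.1
    have h0 : MvPolynomial.eval p F = 0 := hle hmem
    have hB : ∀ (i j : Fin d), MvPolynomial.eval p (B i j) =
        if i.val < 4 ∧ τ i.val = j.val then 1 else 0 := by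
      intro i j
      simp [B, p]
    have hb01 : MvPolynomial.eval p (beta B i₀ i₁ i₀ i₁) = 1 := by
      simp [beta, hB, i₀, i₁, τ]
    have hb23 : MvPolynomial.eval p (beta B i₀ i₁ i₂ i₃) = 1 := by
      simp [beta, hB, i₀, i₁, i₂, i₃, τ]
    have hb02 : MvPolynomial.eval p (beta B i₀ i₁ i₀ i₂) = 0 := by
      simp [beta, hB, i₀, i₁, i₂, τ]
    have ha : ∀ i j : Fin d, i ≠ j →
        (∀ a b : ℕ, (if a = j.val then 1 else if a = i.val then 0 else ρ a) =
          (if b = j.val then 1 else if b = i.val then 0 else ρ b) → a = b) →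
        MvPolynomial.eval p (alpha A i₀ i₁ i j) ≠ 0 := by
      intro i j hij hinj
      have hlt : ∀ a : Fin d, (if a.val = j.val then 1 else if a.val = i.val then 0 else ρ a.val)
          < d := by
        intro a
        simp only [ρ]
        split_ifs <;> omega
      have hr : Function.Injective (fun a : Fin d => (⟨_, hlt a⟩ : Fin d)) := by
        intro a b hab
        exact Fin.ext (hinj a.val b.val (congrArg Fin.val hab))
      have := det_ite_ne_zero (R := k) _ hr
      rw [map_alpha, alpha]
      convert this using 2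
      ext a b
      rw [Matrix.of_apply]
      by_cases haj : a = j
      · subst haj
        rw [Matrix.updateRow_self, Pi.single_apply]
        simp only [Fin.ext_iff, if_true, i₁]
        congr 1
        exact propext eq_comm
      · have haj' : a.val ≠ j.val := fun h => haj (Fin.ext h)
        rw [Matrix.updateRow_ne haj]
        by_cases hai : a = i
        · subst hai
          rw [Matrix.updateRow_self, Pi.single_apply]
          simp only [Fin.ext_iff, if_neg haj', if_true, i₀]
          congr 1
          exact propext eq_comm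
        · have hai' : a.val ≠ i.val := fun h => hai (Fin.ext h)
          rw [Matrix.updateRow_ne hai]
          simp only [Fin.ext_iff, if_neg haj', if_neg hai', A, p, Matrix.map_apply,
            Matrix.of_apply, eval_X, Sum.elim_inl, Fin.val_castLE]
    have ha02 : MvPolynomial.eval p (alpha A i₀ i₁ i₀ i₂) ≠ 0 := by
      apply ha _ _ h02
      intro a b hab
      simp only [i₀, i₂, ρ] at hab
      split_ifs at hab <;> omega
    have ha13 : MvPolynomial.eval p (alpha A i₀ i₁ i₁ i₃) ≠ 0 := by
      apply ha _ _ h13
      intro a b hab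
      simp only [i₁, i₃, ρ] at hab
      split_ifs at hab <;> omega
    have h1 : MvPolynomial.eval p F =
        MvPolynomial.eval p (alpha A i₀ i₁ i₀ i₂) * MvPolynomial.eval p (alpha A i₀ i₁ i₁ i₃) := by
      simp only [F, map_sub, map_mul, hb01, hb23, hb02]
      ring
    exact mul_ne_zero ha02 ha13 (h1.symm.trans h0)
  exact (hprime.mem_or_mem hPF).elim hP hF

/-- For every field `k`, every `m ≥ 5` and every `n ≥ m` there is a subgraph `G` of `K_{m,n}`
containing no `K_{a,b}` with `a, b ≥ 1` and `a + b ≥ m` whose Lovász–Saks–Schrijver ideal in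
dimension `m - 1` is nevertheless not prime. -/
theorem result (k : Type*) [Field k] (m n : ℕ) (hm : 5 ≤ m) (hmn : m ≤ n) :
    ∃ G : SimpleGraph (Fin m ⊕ Fin n),
      G ≤ completeBipartiteGraph (Fin m) (Fin n) ∧
      (∀ a b : ℕ, 1 ≤ a → 1 ≤ b → m ≤ a + b →
        ¬ (completeBipartiteGraph (Fin a) (Fin b)).IsContained G) ∧
      ¬ (lssIdeal k G (m - 1)).IsPrime := by
  refine ⟨crown m n (m - 1), crown_le _ _ _, ?_, ?_⟩
  · intro a b ha hb hab
    exact crown_free m n (m - 1) a b ha hb (by omega)
  · exact crown_not_prime k m n (m - 1) (by omega) (by omega) (by omega)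

end Pool.Agent.Results.MP_024e1e_ag.BipartiteCounterexample
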